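import Pool.Agent.MP_fcd29e_an.H11.CS

/-!
The function on the hub: smoothness, homogeneity, positivity and strict superharmonicity.
-/

set_option autoImplicit false

open Complex Set Filter Topology Metric Pool.Agent.MP_fcd29e_an.H11
open scoped ContDiff ComplexConjugate

namespace Pool.Agent.MP_fcd29e_an.H62

namespace HB

theorem two_le : (2 : WithTop ℕ∞) ≤ ∞ := WithTop.coe_le_coe.2 (le_top : (2 : ℕ∞) ≤ ⊤)

variable {ι : Type} [Fintype ι]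

theorem nsq_contDiff : ContDiff ℝ ∞ (nsq : (ι → ℂ) → ℝ) := by
  unfold nsq
  exact ContDiff.sum fun k _ => (contDiff_apply ℝ ℂ k).norm_sq ℂ

theorem nsq_nonneg (p : ι → ℂ) : 0 ≤ nsq p := Finset.sum_nonneg fun _ _ => by positivity

theorem sq_le_nsq (p : ι → ℂ) (k : ι) : ‖p k‖ ^ 2 ≤ nsq p :=
  Finset.single_le_sum (f := fun k => ‖p k‖ ^ 2) (fun _ _ => by positivity) (Finset.mem_univ k)

theorem nsq_pos {p : ι → ℂ} (hp : p ≠ 0) : 0 < nsq p := by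
  obtain ⟨k, hk⟩ := Function.ne_iff.1 hp
  exact (pow_pos (norm_pos_iff.2 hk) 2).trans_le (sq_le_nsq p k)

theorem ne_zero_of {p : ι → ℂ} (hp : 1 / 4 ≤ nsq p) : p ≠ 0 := by
  rintro rfl
  simp [nsq] at hp
  norm_num at hp

theorem nsq_smul (a : ℝ) (p : ι → ℂ) : nsq ((a : ℂ) • p) = a ^ 2 * nsq p := by
  simp [nsq, Finset.mul_sum, mul_pow]

theorem N_contDiffAt {p : ι → ℂ} (hp : p ≠ 0) :
    ContDiffAt ℝ ∞ (fun q : ι → ℂ => (nsq q ^ 10)⁻¹) p :=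
  (nsq_contDiff.contDiffAt.pow 10).inv (pow_ne_zero _ (nsq_pos hp).ne')

theorem N_bound (ι : Type) [Fintype ι] : ∃ C : ℝ, 0 ≤ C ∧ ∀ p : ι → ℂ, 1 / 4 ≤ nsq p → nsq p ≤ 4 →
    ‖fderiv ℝ (fun q : ι → ℂ => (nsq q ^ 10)⁻¹) p‖ ≤ C ∧
      ‖fderiv ℝ (fderiv ℝ fun q : ι → ℂ => (nsq q ^ 10)⁻¹) p‖ ≤ C := by
  have hK : IsCompact {p : ι → ℂ | 1 / 4 ≤ nsq p ∧ nsq p ≤ 4} := by
    refine (isCompact_closedBall (0 : ι → ℂ) 2).of_isClosed_subset
      ((isClosed_le continuous_const nsq_contDiff.continuous).inter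
        (isClosed_le nsq_contDiff.continuous continuous_const)) fun p hp => ?_
    rw [mem_closedBall_zero_iff, pi_norm_le_iff_of_nonneg zero_le_two]
    intro k
    have := (sq_le_nsq p k).trans hp.2
    nlinarith [norm_nonneg (p k)]
  have h1 : ∀ p ∈ {p : ι → ℂ | 1 / 4 ≤ nsq p ∧ nsq p ≤ 4},
      ContDiffAt ℝ 1 (fderiv ℝ fun q : ι → ℂ => (nsq q ^ 10)⁻¹) p := fun p hp =>
    (N_contDiffAt (ne_zero_of hp.1)).fderiv_right (one_add_one_eq_two.le.trans two_le)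
  obtain ⟨C₁, hC₁⟩ := hK.exists_bound_of_continuousOn fun p hp =>
    (h1 p hp).continuousAt.continuousWithinAt
  obtain ⟨C₂, hC₂⟩ := hK.exists_bound_of_continuousOn fun p hp =>
    ((h1 p hp).fderiv_right (m := 0) (by simp)).continuousAt.continuousWithinAt
  refine ⟨max 0 (max C₁ C₂), le_max_left _ _, fun p h h' => ⟨?_, ?_⟩⟩
  · exact (hC₁ p ⟨h, h'⟩).trans ((le_max_left _ _).trans (le_max_right _ _))
  · exact (hC₂ p ⟨h, h'⟩).trans ((le_max_right _ _).trans (le_max_right _ _))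

theorem comp_bound (hLV : SLV) (Φ : (ι → ℂ) → ℝ) (p : ℂ → ι → ℂ) (z : ℂ) (hp : AnalyticAt ℂ p z)
    (hΦ : ContDiffAt ℝ ∞ Φ (p z)) {C : ℝ} (h1 : ‖fderiv ℝ Φ (p z)‖ ≤ C)
    (h2 : ‖fderiv ℝ (fderiv ℝ Φ) (p z)‖ ≤ C) :
    ContDiffAt ℝ 2 (fun y => Φ (p y)) z ∧ |lap (fun y => Φ (p y)) z| ≤ 2 * C * ‖deriv p z‖ ^ 2 ∧
      ∀ v : ℂ, ‖v‖ = 1 → |fderiv ℝ (fun y => Φ (p y)) z v| ≤ C * ‖deriv p z‖ := by
  have hΦ2 := hΦ.of_le two_le
  have hb : ∀ w : ι → ℂ, |hs Φ (p z) w| ≤ C * ‖w‖ ^ 2 := fun w => by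
    refine ((fderiv ℝ (fderiv ℝ Φ) (p z)).le_opNorm₂ w w).trans ?_
    rw [mul_assoc, ← sq]
    exact mul_le_mul_of_nonneg_right h2 (by positivity)
  refine ⟨hΦ2.comp z (hp.contDiffAt.restrict_scalars ℝ), ?_, fun v hv => ?_⟩
  · rw [lap, (hLV.hol ℂ (ι → ℂ) Φ p z 1 hp hΦ2).1, fderiv_apply_one_eq_deriv, lev]
    refine (abs_add_le _ _).trans ?_
    have := hb (I • deriv p z)
    rw [norm_smul, norm_I, one_mul] at this
    linarith [hb (deriv p z)]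
  · rw [(hLV.hol ℂ (ι → ℂ) Φ p z v hp hΦ2).2, fderiv_eq_smul_deriv]
    refine ((fderiv ℝ Φ (p z)).le_opNorm _).trans ?_
    rw [norm_smul, hv, one_mul]
    exact mul_le_mul_of_nonneg_right h1 (norm_nonneg _)

theorem log_calc (hHS : SHS) (hLV : SLV) (h : ℂ → ℂ) (z : ℂ) (hh : AnalyticAt ℂ h z) (a : ℝ)
    (ha : 0 < a + ‖h z‖ ^ 2) :
    ContDiffAt ℝ 2 (fun y => Real.log (a + ‖h y‖ ^ 2)) z ∧
      lap (fun y => Real.log (a + ‖h y‖ ^ 2)) z =
        4 * a * ‖deriv h z‖ ^ 2 / (a + ‖h z‖ ^ 2) ^ 2 ∧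
      ∀ v : ℂ, ‖v‖ = 1 → |fderiv ℝ (fun y => Real.log (a + ‖h y‖ ^ 2)) z v| ≤
        2 * ‖h z‖ / (a + ‖h z‖ ^ 2) * ‖deriv h z‖ := by
  have hF : AnalyticAt ℂ (fun y (_ : Unit) => h y) z := AnalyticAt.pi fun _ => hh
  have hq : ContDiffAt ℝ 2 (fun y => ‖h y‖ ^ 2) z :=
    (hh.contDiffAt.restrict_scalars ℝ).norm_sq ℂ
  have hq' : ContDiffAt ℝ 2 (fun y => a + ‖h y‖ ^ 2) z := contDiffAt_const.add hq
  have hlog : ContDiffAt ℝ 2 Real.log (a + ‖h z‖ ^ 2) := Real.contDiffAt_log.2 ha.ne'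
  have e0 : (fun y => nsq fun _ : Unit => h y) = fun y => ‖h y‖ ^ 2 := by
    funext y; simp [nsq]
  have e1 : ∀ v, fderiv ℂ (fun y (_ : Unit) => h y) z v = fun _ => v * deriv h z := fun v => by
    rw [fderiv_eq_smul_deriv, deriv_pi fun _ => hh.differentiableAt]
    rfl
  have hd : ∀ v, fderiv ℝ (fun y => a + ‖h y‖ ^ 2) z v = 2 * (v * deriv h z * conj (h z)).re :=
    fun v => by
      have := (hLV.nsq ℂ Unit _ z v hF).2.2
      rw [e0, e1] at this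
      rw [fderiv_const_add, this]
      simp [ip]
  have hl : lap (fun y => ‖h y‖ ^ 2) z = 4 * ‖deriv h z‖ ^ 2 := by
    have := (hLV.nsq ℂ Unit _ z 1 hF).2.1
    rw [e0, e1] at this
    rw [lap, this]
    simp [nsq]
  have hc : ∀ v, hs (fun y => Real.log (a + ‖h y‖ ^ 2)) z v =
      (a + ‖h z‖ ^ 2)⁻¹ * hs (fun y => ‖h y‖ ^ 2) z v -
        ((a + ‖h z‖ ^ 2) ^ 2)⁻¹ * (2 * (v * deriv h z * conj (h z)).re) ^ 2 := fun v => by
    rw [hHS.comp ℂ _ Real.log z v hq' hlog, hd, (hHS.add ℂ _ _ z v contDiffAt_const hq).1,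
      (hHS.cmul ℂ _ a z v hq).2.2, Real.deriv_log', deriv_inv']
    ring
  refine ⟨hq'.log ha.ne', ?_, fun v hv => ?_⟩
  · rw [lap, lev, hc, hc]
    rw [lap, lev] at hl
    have e2 : (1 * deriv h z * conj (h z)).re ^ 2 + ((I • (1 : ℂ)) * deriv h z * conj (h z)).re ^ 2 =
        ‖deriv h z‖ ^ 2 * ‖h z‖ ^ 2 := by
      rw [Complex.sq_norm, Complex.sq_norm, normSq_apply, normSq_apply]
      simp
      ring
    have e3 : hs (fun y => ‖h y‖ ^ 2) z 1 =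
      4 * ‖deriv h z‖ ^ 2 - hs (fun y => ‖h y‖ ^ 2) z (I • (1 : ℂ)) := by linarith
    rw [e3]
    generalize (1 * deriv h z * conj (h z)).re = x at e2 ⊢
    generalize ((I • (1 : ℂ)) * deriv h z * conj (h z)).re = y at e2 ⊢
    field_simp
    linear_combination (-4) * e2
  · have e4 := (hq'.differentiableAt two_ne_zero).hasFDerivAt.log ha.ne'
    rw [e4.fderiv, smul_apply, hd, smul_eq_mul, abs_mul, abs_mul,
      abs_of_pos (inv_pos.2 ha), abs_two]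
    have e5 : |(v * deriv h z * conj (h z)).re| ≤ ‖deriv h z‖ * ‖h z‖ := by
      refine (abs_re_le_norm _).trans (le_of_eq ?_)
      rw [norm_mul, norm_mul, hv, one_mul, Complex.norm_conj]
    calc (a + ‖h z‖ ^ 2)⁻¹ * (2 * |(v * deriv h z * conj (h z)).re|)
        ≤ (a + ‖h z‖ ^ 2)⁻¹ * (2 * (‖deriv h z‖ * ‖h z‖)) := by gcongr
      _ = _ := by field_simp

theorem prod_bound (hHS : SHS) (f g : ℂ → ℝ) (z : ℂ) (hf : ContDiffAt ℝ 2 f z)
    (hg : ContDiffAt ℝ 2 g z) {A A₂ B G : ℝ} (hA : ∀ v : ℂ, ‖v‖ = 1 → |fderiv ℝ f z v| ≤ A)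
    (hB : ∀ v : ℂ, ‖v‖ = 1 → |fderiv ℝ g z v| ≤ B) (hA₂ : |lap f z| ≤ A₂) (hG : |g z| ≤ G) :
    |lap (fun y => f y * g y) z - f z * lap g z| ≤ G * A₂ + 4 * (A * B) := by
  have hI : ‖I • (1 : ℂ)‖ = 1 := by simp
  have e : lap (fun y => f y * g y) z - f z * lap g z = g z * lap f z +
      (2 * (fderiv ℝ f z 1 * fderiv ℝ g z 1) +
        2 * (fderiv ℝ f z (I • 1) * fderiv ℝ g z (I • 1))) := by
    simp only [lap, lev, (hHS.add ℂ f g z _ hf hg).2.2]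
    ring
  have h1 : ∀ v : ℂ, ‖v‖ = 1 → |2 * (fderiv ℝ f z v * fderiv ℝ g z v)| ≤ 2 * (A * B) :=
    fun v hv => by
      rw [abs_mul, abs_mul, abs_two]
      exact mul_le_mul_of_nonneg_left (mul_le_mul (hA v hv) (hB v hv) (abs_nonneg _)
        ((abs_nonneg _).trans (hA v hv))) zero_le_two
  have h2 : |g z * lap f z| ≤ G * A₂ := by
    rw [abs_mul]
    exact mul_le_mul hG hA₂ (abs_nonneg _) ((abs_nonneg _).trans hG)
  rw [e]
  refine (abs_add_le _ _).trans ((add_le_add h2 ((abs_add_le _ _).trans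
    (add_le_add (h1 1 norm_one) (h1 _ hI)))).trans (le_of_eq (by ring)))

theorem norm_tp {m : ℕ} (j : Fin m) : ‖tp j‖ ≤ m := by
  simp [tp]

theorem log_bound {ϱ T x : ℝ} (h0 : 0 < ϱ) (h1 : ϱ ≤ x) (h2 : x ≤ T) :
    |Real.log x| ≤ |Real.log ϱ| + |Real.log T| := by
  have a1 := Real.log_le_log h0 h1
  have a2 := Real.log_le_log (h0.trans_le h1) h2
  rw [abs_le]
  constructor
  · linarith [neg_abs_le (Real.log ϱ), abs_nonneg (Real.log T)]
  · linarith [le_abs_self (Real.log T), abs_nonneg (Real.log ϱ)]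

theorem log_one_add {T : ℝ} {t : ℂ} (h : ‖t‖ ≤ T) : |Real.log (1 + ‖t‖ ^ 2)| ≤ T ^ 2 := by
  rw [abs_of_nonneg (Real.log_nonneg (by nlinarith [sq_nonneg ‖t‖]))]
  have := Real.log_le_sub_one_of_pos (show 0 < 1 + ‖t‖ ^ 2 by positivity)
  nlinarith [norm_nonneg t]

theorem final {n τ q C₁ a b κ : ℝ} (hn : 1 ≤ n) (hτ : 0 < τ) (hq0 : 0 ≤ q) (hq : q ≤ C₁ / n * τ)
    (ha : 0 ≤ a) (hb : 0 ≤ b) (hκ : a * C₁ ^ 2 + b * |C₁| < κ * n) :
    a * q ^ 2 + 1 / n * (b * (q * τ) - κ * τ ^ 2) < 0 := by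
  have hn0 : 0 < n := by linarith
  have h1 : q ≤ |C₁| / n * τ := hq.trans (by gcongr; exact le_abs_self _)
  have h2 : q ^ 2 ≤ (|C₁| / n * τ) ^ 2 := by gcongr
  calc a * q ^ 2 + 1 / n * (b * (q * τ) - κ * τ ^ 2)
      ≤ a * (|C₁| / n * τ) ^ 2 + 1 / n * (b * (|C₁| / n * τ * τ) - κ * τ ^ 2) := by gcongr
    _ = (τ / n) ^ 2 * (a * C₁ ^ 2 + b * |C₁| - κ * n) := by
        rw [← sq_abs C₁]
        field_simp
        ring
    _ < 0 := mul_neg_of_pos_of_neg (by positivity) (by linarith)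

end HB

open HB

theorem shb (hHS : SHS) (hLV : SLV) (hGR : SGR) (hPS : SPS) : SHB := by
  intro r m l η Cs K
  obtain ⟨C, hC0, hC⟩ := hPS r l η Cs
  refine ⟨fun n c S om hR t p ht hp => ⟨?_, fun a ha => ?_⟩, fun ϱ T C₁ hϱ => ?_⟩
  · unfold phh
    refine ((N_contDiffAt hp).comp (t, p) contDiffAt_snd).mul (contDiffAt_const.add
      (ContDiffAt.div_const (ContDiffAt.sub (ContDiffAt.sub (ContDiffAt.sum fun j _ => ?_) ?_)
        contDiffAt_const) _))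
    · refine (((hC c S (om j) (hR.ax j) hR.hc).2.1 p hp).1.comp (t, p) contDiffAt_snd).mul ?_
      exact ((contDiffAt_fst.sub contDiffAt_const).norm ℂ (sub_ne_zero.2 (ht j))).log
        (norm_ne_zero_iff.2 (sub_ne_zero.2 (ht j)))
    · exact (contDiffAt_const.add (contDiffAt_fst.norm_sq ℂ)).log (by positivity)
  · have h1 : ∀ j, psi l η Cs c S (om j) ((a : ℂ) • p) = psi l η Cs c S (om j) p := fun j =>
      ((hC c S (om j) (hR.ax j) hR.hc).2.1 p hp).2 a ha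
    have h2 := nsq_pos hp
    simp only [phh, h1, nsq_smul]
    field_simp
  obtain ⟨D, hD0, hD⟩ := N_bound (Fin r)
  set L := |Real.log ϱ| + |Real.log (T + m)| with hL
  have hL0 : 0 ≤ L := by positivity
  have hlog : ∀ (t : ℂ) (j : Fin m), ϱ ≤ ‖t - tp j‖ → ‖t‖ ≤ T → |Real.log ‖t - tp j‖| ≤ L :=
    fun t j h1 h2 => log_bound hϱ h1 ((norm_sub_le _ _).trans (add_le_add h2 (norm_tp j)))
  set κ : ℝ := (4 ^ 10)⁻¹ * (4 / (1 + T ^ 2) ^ 2) with hκ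
  have hκ0 : 0 < κ := by positivity
  set a : ℝ := (1 + |K|) * (2 * D) + m * (L * (2 * C)) + T ^ 2 * (2 * D) with ha
  set b : ℝ := m * (4 * (C / ϱ)) + 4 * D with hb
  have hnat : Tendsto (fun n : ℕ => (n : ℝ)) atTop atTop := tendsto_natCast_atTop_atTop
  filter_upwards [hnat.eventually_ge_atTop 1, hnat.eventually_gt_atTop (m * (C * L) + T ^ 2 + |K|),
    hnat.eventually_gt_atTop ((a * C₁ ^ 2 + b * |C₁|) / κ)] with n hn1 hn2 hn3 c S om hR
  have hn0 : (0 : ℝ) < n := by linarith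
  refine ⟨fun t p ht hT hp => ?_, fun t p z ht hp hϱt hT hp1 hp2 ht' hp' => ?_⟩
  · refine mul_pos (inv_pos.2 (pow_pos (nsq_pos hp) _)) ?_
    have h1 : |∑ j, psi l η Cs c S (om j) p * Real.log ‖t - tp j‖| ≤ m * (C * L) := by
      refine (Finset.abs_sum_le_sum_abs _ _).trans ((Finset.sum_le_card_nsmul _ _ (C * L)
        fun j _ => ?_).trans (by simp))
      rw [abs_mul]
      exact mul_le_mul ((hC c S (om j) (hR.ax j) hR.hc).1 p) (hlog t j (ht j) hT) (abs_nonneg _) hC0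
    have h2 := log_one_add hT
    rw [one_add_div hn0.ne']
    refine div_pos ?_ hn0
    linarith [(abs_le.1 h1).1, (abs_le.1 h2).2, le_abs_self K]
  have hp0 := ne_zero_of hp1
  obtain ⟨hN, hN2, hN1⟩ := comp_bound hLV _ p z hp (N_contDiffAt hp0) (hD _ hp1 hp2).1
    (hD _ hp1 hp2).2
  have hf := fun j => comp_bound hLV (fun q => (nsq q ^ 10)⁻¹ * psi l η Cs c S (om j) q) p z hp
    ((N_contDiffAt hp0).mul ((hC c S (om j) (hR.ax j) hR.hc).2.1 _ hp0).1)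
    ((hC c S (om j) (hR.ax j) hR.hc).2.2.2 _ hp1 hp2).1
    ((hC c S (om j) (hR.ax j) hR.hc).2.2.2 _ hp1 hp2).2
  obtain ⟨hg, hg2, hg1⟩ := log_calc hHS hLV t z ht 1 (by positivity)
  have hpos : ∀ j : Fin m, 0 < ‖t z - tp j‖ := fun j => hϱ.trans_le (hϱt j)
  have hl := fun j : Fin m => log_calc hHS hLV (fun y => t y - tp j) z (ht.sub analyticAt_const) 0
    (by have := hpos j; positivity)
  have hτ : 0 < ‖deriv t z‖ := norm_pos_iff.2 ht'
  -- the terms at the poles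
  have hj : ∀ j : Fin m, lap (fun y => (nsq (p y) ^ 10)⁻¹ * psi l η Cs c S (om j) (p y) *
      Real.log (0 + ‖t y - tp j‖ ^ 2)) z ≤ 2 * (L * (2 * C) * ‖deriv p z‖ ^ 2 +
        4 * (C / ϱ) * (‖deriv p z‖ * ‖deriv t z‖)) := fun j => by
    have h1 := prod_bound hHS _ _ z (hf j).1 (hl j).1 (hf j).2.2
      (B := 2 / ϱ * ‖deriv t z‖) (G := 2 * L) (fun v hv => ((hl j).2.2 v hv).trans (by
        have := hpos j
        rw [deriv_sub_const, zero_add, sq, mul_div_mul_right _ _ this.ne']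
        gcongr
        exact hϱt j)) (hf j).2.1 (by
        rw [zero_add, Real.log_pow, abs_mul]
        simpa using hlog (t z) j (hϱt j) hT)
    rw [(hl j).2.1] at h1
    simp only [mul_zero, zero_mul, zero_div, sub_zero] at h1
    refine (le_abs_self _).trans (h1.trans (le_of_eq ?_))
    ring
  have hG : -lap (fun y => (nsq (p y) ^ 10)⁻¹ * Real.log (1 + ‖t y‖ ^ 2)) z ≤
      T ^ 2 * (2 * D) * ‖deriv p z‖ ^ 2 + 4 * D * (‖deriv p z‖ * ‖deriv t z‖) -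
        κ * ‖deriv t z‖ ^ 2 := by
    have h1 := prod_bound hHS _ _ z hN hg hN1 (B := ‖deriv t z‖) (G := T ^ 2)
      (fun v hv => (hg1 v hv).trans (mul_le_of_le_one_left hτ.le (by
        rw [div_le_one (by positivity)]
        nlinarith [sq_nonneg (‖t z‖ - 1)]))) hN2 (log_one_add hT)
    rw [hg2] at h1
    have h2 : κ * ‖deriv t z‖ ^ 2 ≤
        (nsq (p z) ^ 10)⁻¹ * (4 * 1 * ‖deriv t z‖ ^ 2 / (1 + ‖t z‖ ^ 2) ^ 2) := by
      have := nsq_pos hp0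
      calc κ * ‖deriv t z‖ ^ 2
          = (4 ^ 10)⁻¹ * (4 * 1 * ‖deriv t z‖ ^ 2 / (1 + T ^ 2) ^ 2) := by rw [hκ]; ring
        _ ≤ _ := by gcongr
    linarith [(abs_le.1 h1).1]
  have hS : ContDiffAt ℝ 2 (fun y => ∑ j, (nsq (p y) ^ 10)⁻¹ * psi l η Cs c S (om j) (p y) *
      Real.log (0 + ‖t y - tp j‖ ^ 2)) z := ContDiffAt.sum fun j _ => (hf j).1.mul (hl j).1
  have e : (fun y => phh n l η Cs K c S om (t y, p y)) = fun y =>
      (1 - K / n) * (nsq (p y) ^ 10)⁻¹ + 1 / n *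
        (1 / 2 * (∑ j, (nsq (p y) ^ 10)⁻¹ * psi l η Cs c S (om j) (p y) *
          Real.log (0 + ‖t y - tp j‖ ^ 2)) - (nsq (p y) ^ 10)⁻¹ * Real.log (1 + ‖t y‖ ^ 2)) := by
    funext y
    have : ∑ j, (nsq (p y) ^ 10)⁻¹ * psi l η Cs c S (om j) (p y) *
        Real.log (0 + ‖t y - tp j‖ ^ 2) = 2 * (nsq (p y) ^ 10)⁻¹ *
          ∑ j, psi l η Cs c S (om j) (p y) * Real.log ‖t y - tp j‖ := by
      rw [Finset.mul_sum]
      refine Finset.sum_congr rfl fun j _ => ?_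
      rw [zero_add, Real.log_pow]
      push_cast
      ring
    rw [this, phh]
    ring
  have e2 : lap (fun y => phh n l η Cs K c S om (t y, p y)) z =
      (1 - K / n) * lap (fun y => (nsq (p y) ^ 10)⁻¹) z + 1 / n *
        (1 / 2 * (∑ j, lap (fun y => (nsq (p y) ^ 10)⁻¹ * psi l η Cs c S (om j) (p y) *
          Real.log (0 + ‖t y - tp j‖ ^ 2)) z) -
          lap (fun y => (nsq (p y) ^ 10)⁻¹ * Real.log (1 + ‖t y‖ ^ 2)) z) := by
    have h3 := (contDiffAt_const (c := (1 / 2 : ℝ))).mul hS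
    have h4 := h3.sub (hN.mul hg)
    simp only [e, lap, lev, Finset.sum_add_distrib,
      (hHS.add ℂ _ _ z _ (contDiffAt_const.mul hN) (contDiffAt_const.mul h4)).1,
      (hHS.cmul ℂ _ _ z _ hN).1, (hHS.cmul ℂ _ _ z _ h4).1,
      (hHS.add ℂ _ _ z _ h3 (hN.mul hg)).2.1, (hHS.cmul ℂ _ _ z _ hS).1,
      hHS.sum ℂ _ Finset.univ _ z _ fun j _ => (hf j).1.mul (hl j).1]
    ring
  have h5 : (1 - K / n) * lap (fun y => (nsq (p y) ^ 10)⁻¹) z ≤
      (1 + |K|) * (2 * D) * ‖deriv p z‖ ^ 2 := by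
    refine (le_abs_self _).trans ?_
    rw [abs_mul, mul_assoc]
    refine mul_le_mul ((abs_sub _ _).trans ?_) hN2 (abs_nonneg _) (by positivity)
    rw [abs_one, abs_div, abs_of_pos hn0]
    gcongr
    exact div_le_self (abs_nonneg _) hn1
  have h6 := (Finset.sum_le_card_nsmul Finset.univ _ _ fun j _ => hj j)
  rw [Finset.card_univ, Fintype.card_fin, nsmul_eq_mul] at h6
  have h7 := final (a := a) (b := b) (κ := κ) hn1 hτ (norm_nonneg _) hp' (by positivity)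
    (by positivity) (by rwa [div_lt_iff₀' hκ0] at hn3)
  refine lt_of_le_of_lt ?_ h7
  have h8 : 1 / (n : ℝ) * ((m * (L * (2 * C)) + T ^ 2 * (2 * D)) * ‖deriv p z‖ ^ 2) ≤
      (m * (L * (2 * C)) + T ^ 2 * (2 * D)) * ‖deriv p z‖ ^ 2 :=
    mul_le_of_le_one_left (by positivity) (by rw [div_le_one hn0]; exact hn1)
  have h9 := mul_le_mul_of_nonneg_left (add_le_add (mul_le_mul_of_nonneg_left h6
    (show (0 : ℝ) ≤ 1 / 2 by norm_num)) hG) (show (0 : ℝ) ≤ 1 / n by positivity)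
  rw [e2, ha, hb]
  linarith

end Pool.Agent.MP_fcd29e_an.H62
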