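import Pool.Agent.MP_fcd29e_an.H81.Spec2

/-!
The concave side is connected.
-/

set_option autoImplicit false

open Pool.Agent.MP_fcd29e_an.H81 MeasureTheory Complex Set Filter Topology Metric
open scoped ContDiff ComplexConjugate ENNReal NNReal

namespace Pool.Agent.MP_fcd29e_an.H62

variable {N : ℕ} {ρ : E N → ℝ}

theorem cda (hρ : Dom ρ) {z : E N} (hz : z ≠ 0) : ContDiffAt ℝ ∞ ρ z :=
  hρ.smooth.contDiffAt (isOpen_compl_singleton.mem_nhds hz)

theorem dda (hρ : Dom ρ) {z : E N} (hz : z ≠ 0) : DifferentiableAt ℝ ρ z :=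
  (cda hρ hz).differentiableAt (by simp)

theorem line_deriv {z v : E N} {t : ℝ} (h : DifferentiableAt ℝ ρ (z + t • v)) :
    HasDerivAt (fun s : ℝ => ρ (z + s • v)) (fderiv ℝ ρ (z + t • v) v) t := by
  have h1 : HasDerivAt (fun s : ℝ => z + s • v) v t := by
    simpa using ((hasDerivAt_id t).smul_const v).const_add z
  exact h.hasFDerivAt.comp_hasDerivAt t h1

/-- Near a boundary point, the concave side lies in one component. -/
theorem loc (hρ : Dom ρ) {p v : E N} {r : ℝ} (hp : ρ p = 0) (hr : 0 < r) (h4 : 4 * r ≤ ‖p‖)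
    (hv : ∀ z ∈ closedBall p r, 1 ≤ fderiv ℝ ρ z v) :
    ∃ r' > 0, ∃ q : E N, ∀ z ∈ Op ρ, z ∈ ball p r' →
      ∃ S : Set (E N), IsPreconnected S ∧ S ⊆ Op ρ ∧ z ∈ S ∧ q ∈ S := by
  have hne : ∀ z ∈ closedBall p r, z ≠ 0 := by
    rintro z hz rfl
    rw [mem_closedBall, dist_zero_left] at hz
    linarith
  obtain ⟨T, hT, hTv⟩ : ∃ T > 0, T * ‖v‖ ≤ r / 2 := by
    refine ⟨r / (2 * (‖v‖ + 1)), by positivity, ?_⟩
    rw [div_mul_eq_mul_div, div_le_div_iff₀ (by positivity) (by positivity)]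
    nlinarith [norm_nonneg v]
  have hin : ∀ z ∈ ball p (r / 2), ∀ t ∈ Icc (0 : ℝ) T, z + t • v ∈ closedBall p r := by
    intro z hz t ht
    rw [mem_ball, dist_eq_norm] at hz
    rw [mem_closedBall, dist_eq_norm, add_sub_right_comm]
    have h1 : ‖t • v‖ ≤ r / 2 := by
      rw [norm_smul, Real.norm_of_nonneg ht.1]
      exact (mul_le_mul_of_nonneg_right ht.2 (norm_nonneg v)).trans hTv
    linarith [norm_add_le (z - p) (t • v)]
  have hmono : ∀ z ∈ ball p (r / 2), ∀ t ∈ Icc (0 : ℝ) T, ρ z + t ≤ ρ (z + t • v) := by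
    intro z hz t ht
    have hd : ∀ s ∈ Icc (0 : ℝ) T, HasDerivAt (fun s : ℝ => ρ (z + s • v))
        (fderiv ℝ ρ (z + s • v) v) s := fun s hs => line_deriv (dda hρ (hne _ (hin z hz s hs)))
    have := (convex_Icc (0 : ℝ) T).mul_sub_le_image_sub_of_le_deriv
      (f := fun s : ℝ => ρ (z + s • v)) (C := 1)
      (fun s hs => (hd s hs).continuousAt.continuousWithinAt)
      (fun s hs => (hd s (interior_subset hs)).differentiableAt.differentiableWithinAt)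
      (fun s hs => by
        rw [(hd s (interior_subset hs)).deriv]
        exact hv _ (hin z hz s (interior_subset hs))) 0 ⟨le_rfl, hT.le⟩ t ht ht.1
    simp only [zero_smul, add_zero] at this
    linarith
  have hq0 : p + T • v ≠ 0 := hne _ (hin p (mem_ball_self (by positivity)) T ⟨hT.le, le_rfl⟩)
  have hq : 0 < ρ (p + T • v) := by
    have := hmono p (mem_ball_self (by positivity)) T ⟨hT.le, le_rfl⟩
    linarith
  have hev : ∀ᶠ z in 𝓝 (p + T • v), z ∈ Op ρ :=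
    (isOpen_compl_singleton.eventually_mem hq0).and
      ((dda hρ hq0).continuousAt.eventually (lt_mem_nhds hq))
  obtain ⟨δ, hδ, hb⟩ := Metric.eventually_nhds_iff_ball.1 hev
  refine ⟨min δ (r / 2), by positivity, p + T • v, fun z hz hzb => ?_⟩
  have hz1 : z ∈ ball p (r / 2) := ball_subset_ball (min_le_right _ _) hzb
  have hz2 : z + T • v ∈ ball (p + T • v) δ := by
    rw [mem_ball, dist_add_right]
    exact ball_subset_ball (min_le_left _ _) hzb
  refine ⟨(fun t : ℝ => z + t • v) '' Icc 0 T ∪ ball (p + T • v) δ, ?_, ?_, ?_, ?_⟩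
  · refine IsPreconnected.union (z + T • v) ⟨T, ⟨hT.le, le_rfl⟩, rfl⟩ hz2 ?_
      (convex_ball _ _).isPreconnected
    exact isPreconnected_Icc.image _ (by fun_prop)
  · rintro w (⟨t, ht, rfl⟩ | hw)
    · refine ⟨hne _ (hin z hz1 t ht), ?_⟩
      have := hmono z hz1 t ht
      have := hz.2
      have := ht.1
      show 0 < ρ (z + t • v)
      linarith
    · exact hb w hw
  · exact Or.inl ⟨0, ⟨le_rfl, hT.le⟩, by simp⟩
  · exact Or.inr (mem_ball_self hδ)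

/-- First order condition. -/
theorem first (hpf : StmtPF) {x e : E N} {m : ℕ} (hx : DifferentiableAt ℝ ρ x)
    (h : ∀ᶠ ζ : ℂ in 𝓝 0, ρ (x + ζ • e) ≤ ρ x * (1 + ‖ζ‖ ^ 2) ^ m) : av ρ x e = 0 := by
  have key : ∀ a : ℂ, ‖a‖ = 1 → fderiv ℝ ρ x (a • e) = 0 := by
    intro a ha
    have h1 : HasDerivAt (fun s : ℝ => ρ (x + s • (a • e))) (fderiv ℝ ρ x (a • e)) 0 := by
      have := line_deriv (ρ := ρ) (z := x) (v := a • e) (t := 0) (by simpa using hx)
      simpa using this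
    have h2 : HasDerivAt (fun s : ℝ => ρ x * (1 + s ^ 2) ^ m) 0 0 := by
      have := ((((hasDerivAt_id (0 : ℝ)).pow 2).const_add 1).pow m).const_mul (ρ x)
      simpa using this
    have ht : Tendsto (fun s : ℝ => (s : ℂ) * a) (𝓝 0) (𝓝 0) := by
      have : Continuous fun s : ℝ => (s : ℂ) * a := by fun_prop
      simpa using this.tendsto 0
    have h3 : IsLocalMax (fun s : ℝ => ρ (x + s • (a • e)) - ρ x * (1 + s ^ 2) ^ m) 0 := by
      filter_upwards [ht.eventually h] with s hs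
      rw [norm_mul, ha, mul_one, norm_real, Real.norm_eq_abs, sq_abs, mul_smul, coe_smul] at hs
      simpa using hs
    simpa using h3.hasDerivAt_eq_zero (h1.sub h2)
  have h1 := key 1 (by simp)
  have h2 := key I (by simp)
  rw [(hpf N).2.1 ρ x _ hx] at h1 h2
  have e2 : av ρ x (I • e) = I * av ρ x e := by
    simp only [av, PiLp.smul_apply, smul_eq_mul, Finset.mul_sum]
    exact Finset.sum_congr rfl fun j _ => by ring
  rw [one_smul] at h1
  rw [e2] at h2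
  apply Complex.ext
  · simpa using h1
  · simpa using h2

theorem hess_log (hρ : Dom ρ) {x e : E N} (hx : x ∈ Op ρ) (he : av ρ x e = 0) :
    hess (cx fun z => Real.log (ρ z)) x (fun j => e j) =
      ((ρ x)⁻¹ : ℝ) * hess (cx ρ) x fun j => e j := by
  have hs := cda hρ hx.1
  have hev : ∀ᶠ z in 𝓝 x, z ≠ 0 ∧ 0 < ρ z :=
    (isOpen_compl_singleton.eventually_mem hx.1).and
      (hs.continuousAt.eventually (lt_mem_nhds hx.2))
  have h1 : ∀ j k, dz j (dzb k (cx fun z => Real.log (ρ z))) x =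
      (-(ρ x ^ 2)⁻¹ : ℝ) * dz j (cx ρ) x * dzb k (cx ρ) x +
        ((ρ x)⁻¹ : ℝ) * dz j (dzb k (cx ρ)) x := by
    intro j k
    have e1 : dzb k (cx fun z => Real.log (ρ z)) =ᶠ[𝓝 x]
        fun z => cx (fun w => (ρ w)⁻¹) z * dzb k (cx ρ) z :=
      hev.mono fun z hz => dzb_comp_real k (dda hρ hz.1) (Real.hasDerivAt_log hz.2.ne')
    have hi : ContDiffAt ℝ ∞ (fun w => (ρ w)⁻¹) x := hs.inv hx.2.ne'
    rw [dz_congr e1, dz_mul j (ContDiffAt.da (contDiffAt_cx hi))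
      (ContDiffAt.da (contDiffAt_dzb k (contDiffAt_cx hs))),
      dz_comp_real j (dda hρ hx.1) (hasDerivAt_inv hx.2.ne')]
  have h2 : ∑ j, ∑ k, (-(ρ x ^ 2)⁻¹ : ℝ) * dz j (cx ρ) x * dzb k (cx ρ) x * e j *
      starRingEnd ℂ (e k) =
      av ρ x e * ∑ k, (-(ρ x ^ 2)⁻¹ : ℝ) * dzb k (cx ρ) x * starRingEnd ℂ (e k) := by
    rw [av, Finset.sum_mul_sum]
    exact Finset.sum_congr rfl fun j _ => Finset.sum_congr rfl fun k _ => by ring
  simp only [hess, h1, add_mul, Finset.sum_add_distrib]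
  rw [h2, he, zero_mul, zero_add]
  simp only [Finset.mul_sum, mul_assoc]

/-- Second order condition. -/
theorem second (h : StmtFP) {f : E N → ℝ} {x y e e' : E N} {a : ℝ → ℝ} {A : ℝ}
    (hx : ContDiffAt ℝ ∞ f x) (hy : ContDiffAt ℝ ∞ f y) (ha : Tendsto a (𝓝 0) (𝓝 A))
    (H : ∀ᶠ ζ : ℂ in 𝓝 0,
      a (‖ζ‖ ^ 2) * ‖ζ‖ ^ 2 + f (x + ζ • e) + f (y + ζ • e') ≤ f x + f y) :
    A + (hess (cx f) x fun j => e j).re + (hess (cx f) y fun j => e' j).re ≤ 0 := by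
  have t1 := (h N).1 f x e 0 hx
  have t2 := (h N).1 f y e' 0 hy
  have t3 : Tendsto (fun r : ℝ => 4 * a (r ^ 2)) (𝓝[≠] 0) (𝓝 (4 * A)) := by
    have : Tendsto (fun r : ℝ => r ^ 2) (𝓝 0) (𝓝 0) := by
      simpa using (continuous_pow 2 (M := ℝ)).tendsto 0
    exact ((ha.comp this).mono_left nhdsWithin_le_nhds).const_mul 4
  have ht : ∀ b : ℂ, ‖b‖ = 1 → ∀ᶠ r : ℝ in 𝓝[≠] 0,
      a (r ^ 2) * r ^ 2 + f (x + r • (b • e)) + f (y + r • (b • e')) ≤ f x + f y := by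
    intro b hb
    have : Tendsto (fun s : ℝ => (s : ℂ) * b) (𝓝 0) (𝓝 0) := by
      have : Continuous fun s : ℝ => (s : ℂ) * b := by fun_prop
      simpa using this.tendsto 0
    filter_upwards [nhdsWithin_le_nhds (this.eventually H)] with s hs
    rwa [norm_mul, hb, mul_one, norm_real, Real.norm_eq_abs, sq_abs, mul_smul, mul_smul, coe_smul,
      coe_smul] at hs
  have := le_of_tendsto ((t3.add t1).add t2) (b := 0) (by
    filter_upwards [ht 1 (by simp), ht (-1) (by simp), ht I (by simp), ht (-I) (by simp),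
      self_mem_nhdsWithin] with r h1 h2 h3 h4 hr
    have hr2 : 0 < r ^ 2 := by have : r ≠ 0 := hr; positivity
    have : (4 * a (r ^ 2) + S4 f x e 0 r / r ^ 2 + S4 f y e' 0 r / r ^ 2) * r ^ 2 ≤ 0 := by
      rw [add_mul, add_mul, div_mul_cancel₀ _ hr2.ne', div_mul_cancel₀ _ hr2.ne']
      simp only [S4, neg_zero, smul_zero, add_zero, neg_smul, smul_neg, one_smul] at *
      linarith
    exact nonpos_of_mul_nonpos_left this hr2)
  linarith

theorem exists_orth (hN : 3 ≤ N) (x y : E N) :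
    ∃ e : E N, ‖e‖ = 1 ∧ inner ℂ x e = 0 ∧ inner ℂ y e = 0 := by
  classical
  have h1 : Submodule.span ℂ (↑({x, y} : Finset (E N)) : Set (E N)) ≠ ⊤ := by
    intro h
    have h2 := finrank_span_finset_le_card (R := ℂ) ({x, y} : Finset (E N))
    rw [Set.finrank, h, finrank_top, finrank_euclideanSpace_fin] at h2
    have := Finset.card_le_two (a := x) (b := y)
    omega
  obtain ⟨e, he, he0⟩ := (Submodule.ne_bot_iff _).1
    (mt (Submodule.orthogonal_eq_bot_iff (K := Submodule.span ℂ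
      (↑({x, y} : Finset (E N)) : Set (E N)))).1 h1)
  have hx := he x (Submodule.subset_span (by simp))
  have hy := he y (Submodule.subset_span (by simp))
  refine ⟨((‖e‖⁻¹ : ℝ) : ℂ) • e, ?_, by rw [inner_smul_right, hx, mul_zero],
    by rw [inner_smul_right, hy, mul_zero]⟩
  rw [norm_smul, norm_real, norm_inv, norm_norm, inv_mul_cancel₀ (norm_ne_zero_iff.2 he0)]

theorem norm_add_orth {x e : E N} (hx : ‖x‖ = 1) (he : ‖e‖ = 1) (h : inner ℂ x e = 0) (ζ : ℂ) :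
    ‖x + ζ • e‖ ^ 2 = 1 + ‖ζ‖ ^ 2 := by
  rw [@norm_add_sq ℂ, inner_smul_right, h, mul_zero, norm_smul, hx, he]
  simp

/-- The inequality at the maximum. -/
theorem atMax (L : Lv0) (h : StmtFP) (hN : 3 ≤ N) (hρ : Dom ρ) {C : ℝ}
    (hC : ∀ z ∈ Op ρ, ∀ w, av ρ z w = 0 →
      -(C * ρ z * ‖w‖ ^ 2 / ‖z‖ ^ 2) ≤ (hess (cx ρ) z fun j => w j).re)
    {x y : E N} {m : ℕ} (hx : x ∈ Op ρ) (hy : y ∈ Op ρ) (hx1 : ‖x‖ = 1) (hy1 : ‖y‖ = 1)
    (hc : 0 < ‖inner ℂ x y‖)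
    (H : ∀ᶠ u : E N × E N in 𝓝 (x, y), ‖inner ℂ u.1 u.2‖ ^ (2 * m) * (ρ u.1 * ρ u.2) ≤
      ‖inner ℂ x y‖ ^ (2 * m) * (ρ x * ρ y) * ((‖u.1‖ ^ 2) ^ m * (‖u.2‖ ^ 2) ^ m)) :
    m * (‖inner ℂ x y‖⁻¹ - 1) ≤ C := by
  obtain ⟨e, he, hxe, hye⟩ := exists_orth hN x y
  obtain ⟨u, hu, hu'⟩ : ∃ u : ℂ, ‖u‖ = 1 ∧ inner ℂ x y = u * ‖inner ℂ x y‖ :=
    ⟨inner ℂ x y / ‖inner ℂ x y‖, by rw [norm_div, norm_real, norm_norm, div_self hc.ne'],
      by rw [div_mul_cancel₀ _ (by exact_mod_cast hc.ne')]⟩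
  generalize ‖inner ℂ x y‖ = c at *
  have he' : ‖u • e‖ = 1 := by rw [norm_smul, hu, he, mul_one]
  have hye' : inner ℂ y (u • e) = 0 := by rw [inner_smul_right, hye, mul_zero]
  have hey : inner ℂ e y = 0 := inner_eq_zero_symm.1 hye
  have hin : ∀ ζ ξ : ℂ, inner ℂ (x + ζ • e) (y + ξ • u • e) = u * (c + conj ζ * ξ) := by
    intro ζ ξ
    simp only [inner_add_left, inner_add_right, inner_smul_left, inner_smul_right, hxe, hey, hu',
      inner_self_eq_norm_sq_to_K, he]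
    push_cast
    ring
  have hT : ∀ a b : ℂ, ∀ᶠ ζ : ℂ in 𝓝 0,
      ‖(c : ℂ) + conj (a * ζ) * (b * ζ)‖ ^ (2 * m) * (ρ (x + (a * ζ) • e) * ρ (y + (b * ζ) • u • e)) ≤
        c ^ (2 * m) * (ρ x * ρ y) * ((1 + ‖a * ζ‖ ^ 2) ^ m * (1 + ‖b * ζ‖ ^ 2) ^ m) := by
    intro a b
    have : Tendsto (fun ζ : ℂ => (x + (a * ζ) • e, y + (b * ζ) • u • e)) (𝓝 0) (𝓝 (x, y)) := by
      have : Continuous fun ζ : ℂ => (x + (a * ζ) • e, y + (b * ζ) • u • e) := by fun_prop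
      simpa using this.tendsto 0
    filter_upwards [this.eventually H] with ζ hζ
    rwa [hin, norm_mul, hu, one_mul, norm_add_orth hx1 he hxe, norm_add_orth hy1 he' hye'] at hζ
  have hcm : 0 < c ^ (2 * m) := by positivity
  have hax : av ρ x e = 0 := by
    refine first L.pf (m := m) (dda hρ hx.1) ?_
    filter_upwards [hT 1 0] with ζ hζ
    simp only [one_mul, zero_mul, mul_zero, add_zero, zero_smul, norm_real, norm_zero,
      Real.norm_of_nonneg hc.le, ne_eq, OfNat.ofNat_ne_zero, not_false_eq_true, zero_pow,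
      one_pow, mul_one] at hζ
    have h1 : c ^ (2 * m) * ρ y * ρ (x + ζ • e) ≤
        c ^ (2 * m) * ρ y * (ρ x * (1 + ‖ζ‖ ^ 2) ^ m) := by linarith
    exact le_of_mul_le_mul_left h1 (mul_pos hcm hy.2)
  have hay : av ρ y (u • e) = 0 := by
    refine first L.pf (m := m) (dda hρ hy.1) ?_
    filter_upwards [hT 0 1] with ζ hζ
    simp only [one_mul, zero_mul, map_zero, add_zero, zero_smul, norm_real, norm_zero,
      Real.norm_of_nonneg hc.le, ne_eq, OfNat.ofNat_ne_zero, not_false_eq_true, zero_pow,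
      one_pow] at hζ
    have h1 : c ^ (2 * m) * ρ x * ρ (y + ζ • u • e) ≤
        c ^ (2 * m) * ρ x * (ρ y * (1 + ‖ζ‖ ^ 2) ^ m) := by linarith
    exact le_of_mul_le_mul_left h1 (mul_pos hcm hx.2)
  have hpos : ∀ z w : E N, z ∈ Op ρ → ∀ᶠ ζ : ℂ in 𝓝 0, 0 < ρ (z + ζ • w) := by
    intro z w hz
    have : Tendsto (fun ζ : ℂ => z + ζ • w) (𝓝 0) (𝓝 z) := by
      have : Continuous fun ζ : ℂ => z + ζ • w := by fun_prop
      simpa using this.tendsto 0
    exact this.eventually ((dda hρ hz.1).continuousAt.eventually (lt_mem_nhds hz.2))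
  have hsec := second h (f := fun z => Real.log (ρ z)) (e := e) (e' := u • e)
    (a := fun s => 2 * m * ((c + s)⁻¹ - 1)) (A := 2 * m * (c⁻¹ - 1))
    ((cda hρ hx.1).log hx.2.ne') ((cda hρ hy.1).log hy.2.ne') (by
      have : ContinuousAt (fun s : ℝ => 2 * m * ((c + s)⁻¹ - 1)) 0 :=
        continuousAt_const.mul (((continuousAt_const.add continuousAt_id).inv₀
          (by simpa using hc.ne')).sub continuousAt_const)
      simpa using this.tendsto) (by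
      filter_upwards [hT 1 1, hpos x e hx, hpos y (u • e) hy] with ζ hζ p1 p2
      rw [one_mul, conj_mul', ← ofReal_pow, ← ofReal_add, norm_real] at hζ
      have hs : 0 ≤ ‖ζ‖ ^ 2 := by positivity
      generalize ‖ζ‖ ^ 2 = s at *
      have hcs : 0 < c + s := by linarith
      rw [Real.norm_of_nonneg hcs.le] at hζ
      have h1 := Real.log_le_log (by positivity) hζ
      have p3 := hx.2
      have p4 := hy.2
      rw [Real.log_mul (by positivity) (by positivity), Real.log_mul p1.ne' p2.ne',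
        Real.log_mul (by positivity) (by positivity), Real.log_mul (by positivity) (by positivity),
        Real.log_mul p3.ne' p4.ne', Real.log_mul (by positivity) (by positivity), Real.log_pow,
        Real.log_pow, Real.log_pow] at h1
      have h2 : Real.log (1 + s) ≤ s := by
        linarith [Real.log_le_sub_one_of_pos (by linarith : 0 < 1 + s)]
      have h3 : Real.log c - Real.log (c + s) ≤ -((c + s)⁻¹ * s) := by
        rw [← Real.log_div hc.ne' hcs.ne']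
        refine (Real.log_le_sub_one_of_pos (by positivity)).trans (le_of_eq ?_)
        field_simp
        ring
      have hm : (0 : ℝ) ≤ m := Nat.cast_nonneg m
      push_cast at h1
      nlinarith [mul_le_mul_of_nonneg_left h2 hm, mul_le_mul_of_nonneg_left h3 hm])
  have hb : ∀ z w : E N, z ∈ Op ρ → ‖z‖ = 1 → ‖w‖ = 1 → av ρ z w = 0 →
      -C ≤ (hess (cx fun z => Real.log (ρ z)) z fun j => w j).re := by
    intro z w hz hz1 hw1 ha
    have h1 := hC z hz w ha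
    rw [hz1, hw1, one_pow, mul_one, div_one] at h1
    rw [hess_log hρ hz ha, re_ofReal_mul, ← div_eq_inv_mul, le_div_iff₀ hz.2]
    linarith
  linarith [hb x e hx hx1 he hax, hb y _ hy hy1 he' hay]

theorem con (L : Lv0) (h : StmtFP) : StmtCON := by
  intro N hN ρ hρ
  obtain ⟨-, hop, -, hcone, -, -, -, -, hdir, ⟨C, hC⟩, -⟩ := L.c1 N ρ hρ
  intro U V hU hV hUV hU1 hV1
  by_contra hne
  have hd : Disjoint (Op ρ ∩ U) (Op ρ ∩ V) :=
    Set.disjoint_left.2 fun z h1 h2 => hne ⟨z, h1.1, h1.2, h2.2⟩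
  have hcov : Op ρ ⊆ (Op ρ ∩ U) ∪ (Op ρ ∩ V) := fun z hz =>
    (hUV hz).imp (fun h => ⟨hz, h⟩) fun h => ⟨hz, h⟩
  have s1 : Op ρ ∩ U ⊆ Op ρ := inter_subset_left
  have s2 : Op ρ ∩ V ⊆ Op ρ := inter_subset_left
  have o1 := hop.inter hU
  have o2 := hop.inter hV
  clear hne
  generalize Op ρ ∩ U = U1 at *
  generalize Op ρ ∩ V = U2 at *
  have j1 : ∀ S, IsPreconnected S → S ⊆ Op ρ → ∀ a ∈ S, a ∈ U1 → S ⊆ U1 :=
    fun S hS hs a h1 h2 => hS.subset_left_of_subset_union o1 o2 hd (hs.trans hcov) ⟨a, h1, h2⟩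
  have j2 : ∀ S, IsPreconnected S → S ⊆ Op ρ → ∀ a ∈ S, a ∈ U2 → S ⊆ U2 :=
    fun S hS hs a h1 h2 => hS.subset_right_of_subset_union o1 o2 hd (hs.trans hcov) ⟨a, h1, h2⟩
  have hline : ∀ z ∈ Op ρ, IsPreconnected ((fun c : ℂ => c • z) '' {0}ᶜ) ∧
      (fun c : ℂ => c • z) '' {0}ᶜ ⊆ Op ρ ∧ z ∈ (fun c : ℂ => c • z) '' {0}ᶜ := by
    refine fun z hz => ⟨?_, ?_, 1, by simp, one_smul _ _⟩
    · exact (isConnected_compl_singleton_of_one_lt_rank (by simp) (0 : ℂ)).isPreconnected.image _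
        (by fun_prop)
    · rintro _ ⟨c, hc, rfl⟩
      exact hcone.2 c hc z hz
  have c1 : ∀ c : ℂ, c ≠ 0 → ∀ z ∈ U1, c • z ∈ U1 := fun c hc z hz =>
    j1 _ (hline z (s1 hz)).1 (hline z (s1 hz)).2.1 z (hline z (s1 hz)).2.2 hz ⟨c, hc, rfl⟩
  have c2 : ∀ c : ℂ, c ≠ 0 → ∀ z ∈ U2, c • z ∈ U2 := fun c hc z hz =>
    j2 _ (hline z (s2 hz)).1 (hline z (s2 hz)).2.1 z (hline z (s2 hz)).2.2 hz ⟨c, hc, rfl⟩
  have hge : ∀ W ⊆ Op ρ, ∀ p ∈ closure W, p ≠ 0 → 0 ≤ ρ p := fun W hW p hp hp0 =>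
    ContinuousWithinAt.closure_le hp continuousWithinAt_const
      ((dda hρ hp0).continuousAt.continuousWithinAt) fun z hz => (hW hz).2.le
  have k1 : ∀ p ∈ closure U1, p ∈ Op ρ → p ∈ U1 := fun p hp ho => (hcov ho).resolve_right
    fun h2 => Set.disjoint_left.1 (hd.closure_left o2) hp h2
  have k2 : ∀ p ∈ closure U2, p ∈ Op ρ → p ∈ U2 := fun p hp ho => (hcov ho).resolve_left
    fun h2 => Set.disjoint_left.1 (hd.closure_right o1) h2 hp
  have hsep : ∀ p ∈ closure U1, p ∈ closure U2 → p = 0 := by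
    intro p h1 h2
    by_contra hp0
    rcases (hge U1 s1 p h1 hp0).eq_or_lt with e | e
    · obtain ⟨v, r, hr, h4, hv⟩ := hdir p hp0 e.symm
      obtain ⟨r', hr', q, hq⟩ := loc hρ e.symm hr h4 hv
      obtain ⟨a, ha, ha'⟩ := Metric.mem_closure_iff.1 h1 r' hr'
      obtain ⟨b, hb, hb'⟩ := Metric.mem_closure_iff.1 h2 r' hr'
      obtain ⟨S, t1, t2, t3, t4⟩ := hq a (s1 ha) (mem_ball'.2 ha')
      obtain ⟨S', t5, t6, t7, t8⟩ := hq b (s2 hb) (mem_ball'.2 hb')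
      exact Set.disjoint_left.1 hd (j1 S t1 t2 a t3 ha t4) (j2 S' t5 t6 b t7 hb t8)
    · exact Set.disjoint_left.1 hd (k1 p h1 ⟨hp0, e⟩) (k2 p h2 ⟨hp0, e⟩)
  have hK : IsCompact ((sphere (0 : E N) 1 ∩ closure U1) ×ˢ (sphere (0 : E N) 1 ∩ closure U2)) :=
    ((isCompact_sphere 0 1).inter_right isClosed_closure).prod
      ((isCompact_sphere 0 1).inter_right isClosed_closure)
  have hn : ∀ z : E N, z ≠ 0 → ((‖z‖⁻¹ : ℝ) : ℂ) ≠ 0 ∧
      ((‖z‖⁻¹ : ℝ) : ℂ) • z ∈ sphere (0 : E N) 1 := fun z hz =>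
    ⟨by simpa using hz, by
      rw [mem_sphere_zero_iff_norm, norm_smul, norm_real, norm_inv, norm_norm,
        inv_mul_cancel₀ (norm_ne_zero_iff.2 hz)]⟩
  have hmem : ∀ x ∈ U1, ∀ y ∈ U2, (((‖x‖⁻¹ : ℝ) : ℂ) • x, ((‖y‖⁻¹ : ℝ) : ℂ) • y) ∈
      (sphere (0 : E N) 1 ∩ closure U1) ×ˢ (sphere (0 : E N) 1 ∩ closure U2) := fun x hx y hy =>
    ⟨⟨(hn x (s1 hx).1).2, subset_closure (c1 _ (hn x (s1 hx).1).1 x hx)⟩,
      (hn y (s2 hy).1).2, subset_closure (c2 _ (hn y (s2 hy).1).1 y hy)⟩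
  obtain ⟨x0, hx0, y0, hy0, h0⟩ : ∃ x ∈ U1, ∃ y ∈ U2, inner ℂ x y ≠ 0 := by
    obtain ⟨x, hx⟩ := hU1
    obtain ⟨y, hy⟩ := hV1
    by_cases hxy : inner ℂ x y = 0
    · have : Tendsto (fun ζ : ℂ => y + ζ • x) (𝓝[≠] 0) (𝓝 y) := by
        have : Continuous fun ζ : ℂ => y + ζ • x := by fun_prop
        exact tendsto_nhdsWithin_of_tendsto_nhds (by simpa using this.tendsto 0)
      obtain ⟨ζ, h1, h2⟩ := ((this.eventually (o2.mem_nhds hy)).and self_mem_nhdsWithin).exists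
      refine ⟨x, hx, _, h1, ?_⟩
      rw [inner_add_right, hxy, zero_add, inner_smul_right]
      exact mul_ne_zero h2 (inner_self_ne_zero.2 (s1 hx).1)
    · exact ⟨x, hx, y, hy, hxy⟩
  have hKne := Set.nonempty_of_mem (hmem x0 hx0 y0 hy0)
  have hs0 : ∀ z ∈ sphere (0 : E N) 1, z ≠ 0 := fun z hz => ne_zero_of_mem_unit_sphere ⟨z, hz⟩
  have hci : Continuous fun u : E N × E N => ‖inner ℂ u.1 u.2‖ := by fun_prop
  obtain ⟨⟨a, b⟩, hab, hmax⟩ := hK.exists_isMaxOn hKne hci.continuousOn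
  have hc0 : ‖inner ℂ a b‖ < 1 := by
    have h1 := norm_inner_le_norm (𝕜 := ℂ) a b
    refine lt_of_le_of_ne (by
      rwa [mem_sphere_zero_iff_norm.1 hab.1.1, mem_sphere_zero_iff_norm.1 hab.2.1, mul_one] at h1)
      fun e => ?_
    obtain ⟨c, hc, hb⟩ := (norm_inner_eq_norm_iff (𝕜 := ℂ) (hs0 a hab.1.1) (hs0 b hab.2.1)).1 (by
      rw [e, mem_sphere_zero_iff_norm.1 hab.1.1, mem_sphere_zero_iff_norm.1 hab.2.1, mul_one])
    refine hs0 b hab.2.1 (hsep b ?_ hab.2.2)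
    rw [hb]
    exact map_mem_closure (f := fun z : E N => c • z) (by fun_prop) hab.1.2 (c1 c hc)
  obtain ⟨m, hm⟩ := exists_nat_gt (max C 0 / (1 - ‖inner ℂ a b‖))
  rw [div_lt_iff₀ (by linarith)] at hm
  have hm0 : m ≠ 0 := by
    rintro rfl
    simp at hm
  have hcρ : ContinuousOn ρ (sphere (0 : E N) 1) := fun z hz =>
    (dda hρ (hs0 z hz)).continuousAt.continuousWithinAt
  obtain ⟨⟨x, y⟩, hxy, hM⟩ := hK.exists_isMaxOn hKne
    (f := fun u : E N × E N => ‖inner ℂ u.1 u.2‖ ^ (2 * m) * (ρ u.1 * ρ u.2))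
    ((hci.pow _).continuousOn.mul ((hcρ.comp continuousOn_fst fun u hu => hu.1.1).mul
      (hcρ.comp continuousOn_snd fun u hu => hu.2.1)))
  have H : ∀ x' ∈ U1, ∀ y' ∈ U2, ‖inner ℂ x' y'‖ ^ (2 * m) * (ρ x' * ρ y') ≤
      ‖inner ℂ x y‖ ^ (2 * m) * (ρ x * ρ y) * ((‖x'‖ ^ 2) ^ m * (‖y'‖ ^ 2) ^ m) := by
    intro x' hx' y' hy'
    have h1 := isMaxOn_iff.1 hM _ (hmem x' hx' y' hy')
    dsimp only at h1
    have p1 := norm_pos_iff.2 (s1 hx').1
    have p2 := norm_pos_iff.2 (s2 hy').1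
    rw [hρ.inv _ (hn x' (s1 hx').1).1, hρ.inv _ (hn y' (s2 hy').1).1, inner_smul_left,
      inner_smul_right, norm_mul, norm_mul, RCLike.norm_conj, norm_real, norm_real, norm_inv,
      norm_inv, norm_norm, norm_norm] at h1
    refine le_trans (le_of_eq ?_) (mul_le_mul_of_nonneg_right h1 (by positivity))
    rw [mul_pow, mul_pow, ← pow_mul, ← pow_mul, inv_pow, inv_pow]
    field_simp
  have hpos : 0 < ‖inner ℂ x y‖ ^ (2 * m) * (ρ x * ρ y) := by
    have h1 := H x0 hx0 y0 hy0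
    have h2 : 0 < ‖inner ℂ x0 y0‖ ^ (2 * m) * (ρ x0 * ρ y0) :=
      mul_pos (pow_pos (norm_pos_iff.2 h0) _) (mul_pos (s1 hx0).2 (s2 hy0).2)
    exact pos_of_mul_pos_left (h2.trans_le h1) (by positivity)
  have g1 := hge U1 s1 x hxy.1.2 (hs0 x hxy.1.1)
  have g2 := hge U2 s2 y hxy.2.2 (hs0 y hxy.2.1)
  have hx : x ∈ Op ρ := ⟨hs0 x hxy.1.1, g1.lt_of_ne fun e => by simp [← e] at hpos⟩
  have hy : y ∈ Op ρ := ⟨hs0 y hxy.2.1, g2.lt_of_ne fun e => by simp [← e] at hpos⟩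
  have hc : 0 < ‖inner ℂ x y‖ := (norm_nonneg _).lt_of_ne fun e => by simp [← e, hm0] at hpos
  have fin := atMax L h hN hρ hC (m := m) hx hy (mem_sphere_zero_iff_norm.1 hxy.1.1)
    (mem_sphere_zero_iff_norm.1 hxy.2.1) hc (by
      filter_upwards [(o1.prod o2).mem_nhds (mk_mem_prod (k1 x hxy.1.2 hx) (k2 y hxy.2.2 hy))]
        with u hu
      exact H _ hu.1 _ hu.2)
  have hle := isMaxOn_iff.1 hmax _ hxy
  dsimp only at hle
  have h5 : 1 - ‖inner ℂ a b‖ ≤ ‖inner ℂ x y‖⁻¹ - 1 := by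
    generalize ‖inner ℂ x y‖ = c at *
    have : 2 - c ≤ c⁻¹ := by
      rw [← one_div, le_div_iff₀ hc]
      nlinarith [sq_nonneg (c - 1)]
    linarith
  have := mul_le_mul_of_nonneg_left h5 (Nat.cast_nonneg (α := ℝ) m)
  linarith [le_max_left C 0]

end Pool.Agent.MP_fcd29e_an.H62
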