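import Pool.Agent.MP_fcd29e_an.H31.Spec3

/-!
Dyadic sums in the Sobolev space of negative order.
-/

set_option autoImplicit false

open MeasureTheory Complex Set Filter Topology Metric Pool.Agent.MP_fcd29e_an.H81
  Pool.Agent.MP_fcd29e_an.H31
open scoped ContDiff ComplexConjugate ENNReal NNReal FourierTransform SchwartzMap

namespace Pool.Agent.MP_fcd29e_an.H62

variable {N : ℕ}

theorem dy_pos (j : ℕ) : 0 < dy j := by
  unfold dy
  positivity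

theorem fin_of_tsum (u : ℕ → ℝ) (p : ℕ → Prop) [DecidablePred p] (hu : ∀ j, 0 ≤ u j)
    (C : ℝ≥0) (b : ℝ) (hb : 0 ≤ b)
    (h : (∑' j, if p j then ENNReal.ofReal (u j) else 0) ≤ C * ENNReal.ofReal b) (J : ℕ) :
    ∑ j ∈ Finset.range J, (if p j then u j else 0) ≤ C * b := by
  have h0 : ∀ j ∈ Finset.range J, 0 ≤ (if p j then u j else 0) := by
    intro j _
    split_ifs
    · exact hu j
    · exact le_rfl
  have hC : (0 : ℝ) ≤ C * b := mul_nonneg C.coe_nonneg hb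
  rw [← ENNReal.ofReal_le_ofReal_iff hC, ENNReal.ofReal_sum_of_nonneg h0,
    ENNReal.ofReal_mul C.coe_nonneg, ENNReal.ofReal_coe_nnreal]
  refine le_trans ?_ h
  refine le_trans (le_of_eq ?_) (ENNReal.sum_le_tsum (Finset.range J))
  refine Finset.sum_congr rfl fun j _ => ?_
  split_ifs
  · rfl
  · exact ENNReal.ofReal_zero

theorem fourier_fsum (J : ℕ) (g : ℕ → E N → ℂ) (hg : ∀ j, Integrable (g j)) (ξ : E N) :
    𝓕 (fun x => ∑ j ∈ Finset.range J, g j x) ξ = ∑ j ∈ Finset.range J, 𝓕 (g j) ξ := by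
  simp only [Real.fourier_eq]
  rw [← integral_finsetSum _ fun j _ => (Real.fourierIntegral_convergent_iff ξ).2 (hg j)]
  refine integral_congr_ae (Eventually.of_forall fun x => ?_)
  exact Finset.smul_sum

theorem sq_bound (G : StmtGEO) (s : ℝ) (M : ℕ) (hs : 0 < s) (hM : s < M) (F : E N → ℂ)
    (C₀ B : ℝ) (h0 : ∀ η, ‖F η‖ ≤ C₀ * ‖η‖ ^ M) (hB : ∀ η, ‖F η‖ ≤ B) :
    ∃ A : ℝ, 0 ≤ A ∧ ∀ (J : ℕ) (ξ : E N), (1 + ‖ξ‖ ^ 2) ^ (-s) *
      ∑ j ∈ Finset.range J, (dy j ^ (-s) * ‖F (dy j • ξ)‖) ^ 2 ≤ A := by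
  obtain ⟨C₁, h₁⟩ := G (2 * M - 2 * s) (by linarith)
  obtain ⟨C₂, h₂⟩ := G (2 * s) (by linarith)
  refine ⟨C₀ ^ 2 * C₁ + B ^ 2 * C₂, by positivity, fun J ξ => ?_⟩
  have hq : 0 < 1 + ‖ξ‖ ^ 2 := by positivity
  obtain ⟨y, hy⟩ : ∃ y : ℝ, y = (1 + ‖ξ‖ ^ 2) ^ (-(1 / 2) : ℝ) := ⟨_, rfl⟩
  have hy0 : 0 < y := by
    rw [hy]
    exact Real.rpow_pos_of_pos hq _
  have e1 : (1 + ‖ξ‖ ^ 2) ^ (-s) = y ^ (2 * s) := by
    rw [hy, ← Real.rpow_mul hq.le]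
    congr 1
    ring
  have e2 : y ^ 2 * (1 + ‖ξ‖ ^ 2) = 1 := by
    have : y ^ 2 = (1 + ‖ξ‖ ^ 2)⁻¹ := by
      rw [hy, ← Real.rpow_natCast, ← Real.rpow_mul hq.le, ← Real.rpow_neg_one]
      congr 1
      norm_num
    rw [this, inv_mul_cancel₀ hq.ne']
  have e3 : ‖ξ‖ ≤ y⁻¹ := by
    rw [← one_div, le_div_iff₀ hy0]
    have h5 : (‖ξ‖ * y) ^ 2 ≤ 1 := by nlinarith [sq_nonneg y]
    nlinarith [mul_nonneg (norm_nonneg ξ) hy0.le]
  have g1 := fin_of_tsum (fun j => dy j ^ (2 * M - 2 * s)) (fun j => dy j ≤ y)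
    (fun j => (Real.rpow_pos_of_pos (dy_pos j) _).le) C₁ _ (Real.rpow_pos_of_pos hy0 _).le
    (h₁ y hy0).1 J
  have g2 := fin_of_tsum (fun j => dy j ^ (-(2 * s))) (fun j => y ≤ dy j)
    (fun j => (Real.rpow_pos_of_pos (dy_pos j) _).le) C₂ _ (Real.rpow_pos_of_pos hy0 _).le
    (h₂ y hy0).2 J
  have hterm : ∀ j ∈ Finset.range J, (dy j ^ (-s) * ‖F (dy j • ξ)‖) ^ 2 ≤
      C₀ ^ 2 * y ^ (-(2 * M) : ℝ) * (if dy j ≤ y then dy j ^ (2 * M - 2 * s) else 0) +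
        B ^ 2 * (if y ≤ dy j then dy j ^ (-(2 * s)) else 0) := by
    intro j _
    have ht := dy_pos j
    generalize dy j = t at ht ⊢
    have e4 : (t ^ (-s)) ^ 2 = t ^ (-(2 * s)) := by
      rw [← Real.rpow_natCast, ← Real.rpow_mul ht.le]
      congr 1
      push_cast
      ring
    have p1 : 0 < t ^ (-(2 * s)) := Real.rpow_pos_of_pos ht _
    have p2 : 0 < t ^ (2 * M - 2 * s) := Real.rpow_pos_of_pos ht _
    have p3 : 0 < y ^ (-(2 * M) : ℝ) := Real.rpow_pos_of_pos hy0 _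
    rw [mul_pow, e4]
    by_cases h : t ≤ y
    · rw [if_pos h]
      have k1 : ‖t • ξ‖ ^ M ≤ (t * y⁻¹) ^ M := by
        refine pow_le_pow_left₀ (norm_nonneg _) ?_ M
        rw [norm_smul, Real.norm_eq_abs, abs_of_pos ht]
        exact mul_le_mul_of_nonneg_left e3 ht.le
      have k2 : ‖F (t • ξ)‖ ≤ |C₀| * (t * y⁻¹) ^ M :=
        (h0 _).trans (mul_le_mul (le_abs_self _) k1 (by positivity) (abs_nonneg _))
      have k3 : ‖F (t • ξ)‖ ^ 2 ≤ (|C₀| * (t * y⁻¹) ^ M) ^ 2 :=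
        pow_le_pow_left₀ (norm_nonneg _) k2 2
      have k4 : t ^ (-(2 * s)) * (|C₀| * (t * y⁻¹) ^ M) ^ 2 =
          C₀ ^ 2 * y ^ (-(2 * M) : ℝ) * t ^ (2 * M - 2 * s) := by
        have a1 : t ^ (2 * M - 2 * s) = (t ^ M) ^ 2 * t ^ (-(2 * s)) := by
          rw [sub_eq_add_neg, Real.rpow_add ht, ← pow_mul, ← Real.rpow_natCast]
          congr 2
          push_cast
          ring
        have a2 : y ^ (-(2 * M) : ℝ) = (y⁻¹ ^ M) ^ 2 := by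
          rw [Real.rpow_neg hy0.le, ← pow_mul, inv_pow, ← Real.rpow_natCast]
          congr 2
          push_cast
          ring
        rw [a1, a2, mul_pow, sq_abs, mul_pow]
        ring
      have k5 : 0 ≤ B ^ 2 * (if y ≤ t then t ^ (-(2 * s)) else 0) := by
        split_ifs
        · positivity
        · exact le_of_eq (mul_zero _).symm
      have k6 := mul_le_mul_of_nonneg_left k3 p1.le
      linarith
    · rw [if_neg h, if_pos (not_le.1 h).le, mul_zero, zero_add, mul_comm]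
      exact mul_le_mul_of_nonneg_right (pow_le_pow_left₀ (norm_nonneg _) (hB _) 2) p1.le
  have hsum := Finset.sum_le_sum hterm
  rw [Finset.sum_add_distrib, ← Finset.mul_sum, ← Finset.mul_sum] at hsum
  have p3 : 0 < y ^ (-(2 * M) : ℝ) := Real.rpow_pos_of_pos hy0 _
  have p4 : 0 < y ^ (2 * s) := Real.rpow_pos_of_pos hy0 _
  have g3 := mul_le_mul_of_nonneg_left g1 (by positivity : 0 ≤ C₀ ^ 2 * y ^ (-(2 * M) : ℝ))
  have g4 := mul_le_mul_of_nonneg_left g2 (sq_nonneg B)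
  have a1 : y ^ (2 * s) * (y ^ (-(2 * M) : ℝ) * y ^ (2 * M - 2 * s)) = 1 := by
    rw [← Real.rpow_add hy0, ← Real.rpow_add hy0]
    have : 2 * s + (-(2 * (M : ℝ)) + (2 * M - 2 * s)) = 0 := by ring
    rw [this, Real.rpow_zero]
  have a2 : y ^ (2 * s) * y ^ (-(2 * s)) = 1 := by
    rw [← Real.rpow_add hy0, add_neg_cancel, Real.rpow_zero]
  rw [e1]
  refine (mul_le_mul_of_nonneg_left (hsum.trans (add_le_add g3 g4)) p4.le).trans (le_of_eq ?_)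
  calc y ^ (2 * s) * (C₀ ^ 2 * y ^ (-(2 * M) : ℝ) * (C₁ * y ^ (2 * M - 2 * s)) +
        B ^ 2 * (C₂ * y ^ (-(2 * s))))
      = C₀ ^ 2 * C₁ * (y ^ (2 * s) * (y ^ (-(2 * M) : ℝ) * y ^ (2 * M - 2 * s))) +
        B ^ 2 * C₂ * (y ^ (2 * s) * y ^ (-(2 * s))) := by ring
    _ = C₀ ^ 2 * C₁ + B ^ 2 * C₂ := by rw [a1, a2, mul_one, mul_one]

theorem cs_fin (s : ℝ) (J : ℕ) (a b : ℕ → ℂ) :
    ‖∑ j ∈ Finset.range J, a j * b j‖ ^ 2 ≤
      (∑ j ∈ Finset.range J, (dy j ^ (-s) * ‖a j‖) ^ 2) *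
        ∑ j ∈ Finset.range J, dy j ^ (2 * s) * ‖b j‖ ^ 2 := by
  have h1 : ‖∑ j ∈ Finset.range J, a j * b j‖ ≤
      ∑ j ∈ Finset.range J, (dy j ^ (-s) * ‖a j‖) * (dy j ^ s * ‖b j‖) := by
    refine (norm_sum_le _ _).trans (le_of_eq (Finset.sum_congr rfl fun j _ => ?_))
    have a2 : dy j ^ (-s) * dy j ^ s = 1 := by
      rw [← Real.rpow_add (dy_pos j), neg_add_cancel, Real.rpow_zero]
    rw [norm_mul, mul_mul_mul_comm, a2, one_mul]
  refine (pow_le_pow_left₀ (norm_nonneg _) h1 2).trans ?_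
  refine (Finset.sum_mul_sq_le_sq_mul_sq _ _ _).trans (le_of_eq ?_)
  congr 1
  refine Finset.sum_congr rfl fun j _ => ?_
  rw [mul_pow, ← Real.rpow_natCast, ← Real.rpow_mul (dy_pos j).le]
  congr 2
  push_cast
  ring

theorem tst_int {ψ : E N → ℂ} (h : Tst ψ) : Integrable ψ :=
  h.1.continuous.integrable_of_hasCompactSupport h.2

theorem dy2 (L : Lv2) : StmtDY2 := by
  intro N s M hs hM k C₀ hk h0
  obtain ⟨-, hB, -, hsc, -, -⟩ := L.fb N k (tst_int hk)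
  obtain ⟨A, hA, hb⟩ := sq_bound L.geo s M hs hM (𝓕 k) C₀ _ h0 hB
  refine ⟨A.toNNReal, fun J h hh => ?_⟩
  have hT : ∀ j, Tst (Sc (dy j) k) := fun j => (L.fa N k hk).2.2.2.2.2.2.1 _ (dy_pos j)
  have hcv := fun j => (L.fb N _ (tst_int (hT j))).2.2.2.2.2 (hT j).2 (h j) (hh j)
  have hF : ∀ ξ, 𝓕 (fun x => ∑ j ∈ Finset.range J, Cv (Sc (dy j) k) (h j) x) ξ =
      ∑ j ∈ Finset.range J, 𝓕 k (dy j • ξ) * 𝓕 (h j) ξ := by
    intro ξ
    rw [fourier_fsum J _ (fun j => tst_int (hcv j).1)]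
    refine Finset.sum_congr rfl fun j _ => ?_
    rw [(hcv j).2.1 ξ, (hsc _ (dy_pos j)).2.2.2 ξ]
  have hmeas : ∀ j, Measurable fun ξ : E N => ENNReal.ofReal (‖𝓕 (h j) ξ‖ ^ 2) := fun j =>
    ((L.fb N _ (tst_int (hh j))).1.norm.pow 2).measurable.ennreal_ofReal
  have hpt : ∀ ξ : E N, ENNReal.ofReal ((1 + ‖ξ‖ ^ 2) ^ (-s) *
      ‖𝓕 (fun x => ∑ j ∈ Finset.range J, Cv (Sc (dy j) k) (h j) x) ξ‖ ^ 2) ≤
      ENNReal.ofReal A * ∑ j ∈ Finset.range J,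
        ENNReal.ofReal (dy j ^ (2 * s)) * ENNReal.ofReal (‖𝓕 (h j) ξ‖ ^ 2) := by
    intro ξ
    have p : ∀ j, 0 ≤ dy j ^ (2 * s) := fun j => (Real.rpow_pos_of_pos (dy_pos j) _).le
    have e : ∑ j ∈ Finset.range J,
        ENNReal.ofReal (dy j ^ (2 * s)) * ENNReal.ofReal (‖𝓕 (h j) ξ‖ ^ 2) =
        ENNReal.ofReal (∑ j ∈ Finset.range J, dy j ^ (2 * s) * ‖𝓕 (h j) ξ‖ ^ 2) := by
      rw [ENNReal.ofReal_sum_of_nonneg fun j _ => mul_nonneg (p j) (sq_nonneg _)]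
      exact Finset.sum_congr rfl fun j _ => (ENNReal.ofReal_mul (p j)).symm
    rw [e, ← ENNReal.ofReal_mul hA, hF]
    refine ENNReal.ofReal_le_ofReal ?_
    have hq : 0 ≤ (1 + ‖ξ‖ ^ 2) ^ (-s) := Real.rpow_nonneg (by positivity) _
    refine (mul_le_mul_of_nonneg_left (cs_fin s J _ _) hq).trans ?_
    rw [← mul_assoc]
    exact mul_le_mul_of_nonneg_right (hb J ξ)
      (Finset.sum_nonneg fun j _ => mul_nonneg (p j) (sq_nonneg _))
  refine (lintegral_mono hpt).trans (le_of_eq ?_)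
  rw [lintegral_const_mul' _ _ ENNReal.ofReal_ne_top,
    lintegral_finsetSum _ fun j _ => (hmeas j).const_mul _]
  have eA : ENNReal.ofReal A = (A.toNNReal : ℝ≥0∞) := rfl
  rw [eA]
  congr 1
  refine Finset.sum_congr rfl fun j _ => ?_
  rw [lintegral_const_mul' _ _ ENNReal.ofReal_ne_top, ← (L.fa N _ (hh j)).1]
  rfl

end Pool.Agent.MP_fcd29e_an.H62
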